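import Mathlib

set_option autoImplicit false

/-!
# Generalised binomial coefficients: signs, Pascal rule, partial sums
-/

namespace Run7.h830.Br

open Finset

/-- The generalised binomial coefficient `α (α - 1) ⋯ (α - k + 1) / k!`. -/
noncomputable def c (a : ℝ) (k : ℕ) : ℝ :=
  (∏ j ∈ range k, (a - (j : ℝ))) / (k.factorial : ℝ)

theorem c_zero (a : ℝ) : c a 0 = 1 := by simp [c]

theorem c_succ (a : ℝ) (k : ℕ) : c a (k + 1) = c a k * (a - k) / (k + 1) := by
  unfold c
  rw [prod_range_succ, Nat.factorial_succ]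
  have h1 : (k.factorial : ℝ) ≠ 0 := by positivity
  have h2 : ((k : ℝ) + 1) ≠ 0 := by positivity
  push_cast
  field_simp

theorem c_one (a : ℝ) : c a 1 = a := by
  have := c_succ a 0
  simpa [c_zero] using this

theorem c_succ' (a : ℝ) (k : ℕ) : ((k : ℝ) + 1) * c a (k + 1) = c a k * (a - k) := by
  rw [c_succ]
  have h2 : ((k : ℝ) + 1) ≠ 0 := by positivity
  field_simp

/-- Absorption. -/
theorem c_absorb (a : ℝ) (k : ℕ) : ((k : ℝ) + 1) * c (a + 1) (k + 1) = (a + 1) * c a k := by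
  induction k with
  | zero => simp [c_zero, c_one]
  | succ n ih =>
    have h1 := c_succ' (a + 1) (n + 1)
    have h2 := c_succ' a n
    push_cast at h1 h2 ⊢
    have h3 : ((n : ℝ) + 1) * (((n : ℝ) + 1 + 1) * c (a + 1) (n + 1 + 1)) =
        ((n : ℝ) + 1) * ((a + 1) * c a (n + 1)) := by
      rw [h1]
      calc ((n : ℝ) + 1) * (c (a + 1) (n + 1) * (a + 1 - (n + 1)))
          = (((n : ℝ) + 1) * c (a + 1) (n + 1)) * (a - n) := by ring
        _ = (a + 1) * (c a n * (a - n)) := by rw [ih]; ring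
        _ = ((n : ℝ) + 1) * ((a + 1) * c a (n + 1)) := by rw [← h2]; ring
    exact mul_left_cancel₀ (by positivity) h3

/-- Pascal. -/
theorem c_pascal (a : ℝ) (k : ℕ) : c (a + 1) (k + 1) = c a (k + 1) + c a k := by
  have h1 := c_absorb a k
  have h2 := c_succ' a k
  have h3 : ((k : ℝ) + 1) * c (a + 1) (k + 1) = ((k : ℝ) + 1) * (c a (k + 1) + c a k) := by
    rw [h1, mul_add, h2]; ring
  exact mul_left_cancel₀ (by positivity) h3

/-- Sign: `k ≤ N + 1`. -/
theorem c_nonneg_of_le (a : ℝ) (N : ℕ) (h : (N : ℝ) ≤ a) (k : ℕ) (hk : k ≤ N + 1) :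
    0 ≤ c a k := by
  unfold c
  apply div_nonneg _ (by positivity)
  apply prod_nonneg
  intro j hj
  have : j ≤ N := by
    have := mem_range.1 hj
    omega
  have : (j : ℝ) ≤ N := by exact_mod_cast this
  linarith

/-- Sign: `k = N + 1 + 2 i`. -/
theorem c_nonneg_of_parity (a : ℝ) (N : ℕ) (h : (N : ℝ) ≤ a) (h' : a ≤ N + 1) (i : ℕ) :
    0 ≤ c a (N + 1 + 2 * i) := by
  induction i with
  | zero => exact c_nonneg_of_le a N h _ (by omega)
  | succ i ih =>
    have e : N + 1 + 2 * (i + 1) = (N + 1 + 2 * i + 1) + 1 := by ring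
    rw [e, c_succ, c_succ]
    apply div_nonneg _ (by positivity)
    have h1 : 0 ≤ (-(a - ((N + 1 + 2 * i : ℕ) : ℝ))) := by push_cast; nlinarith
    have h2 : 0 ≤ (-(a - ((N + 1 + 2 * i + 1 : ℕ) : ℝ))) := by push_cast; nlinarith
    have h3 : 0 ≤ c a (N + 1 + 2 * i) * (-(a - ((N + 1 + 2 * i : ℕ) : ℝ))) *
        (-(a - ((N + 1 + 2 * i + 1 : ℕ) : ℝ))) := mul_nonneg (mul_nonneg ih h1) h2
    have h4 : 0 ≤ c a (N + 1 + 2 * i) * (-(a - ((N + 1 + 2 * i : ℕ) : ℝ))) *
        (-(a - ((N + 1 + 2 * i + 1 : ℕ) : ℝ))) / (((N + 1 + 2 * i : ℕ) : ℝ) + 1) :=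
      div_nonneg h3 (by positivity)
    calc (0 : ℝ) ≤ _ := h4
      _ = _ := by ring

theorem c_even_nonneg (g : ℝ) (h' : g ≤ 0) (i : ℕ) : 0 ≤ c g (2 * i) := by
  induction i with
  | zero => simp [c_zero]
  | succ i ih =>
    have e : 2 * (i + 1) = (2 * i + 1) + 1 := by ring
    rw [e, c_succ, c_succ]
    apply div_nonneg _ (by positivity)
    have h1 : 0 ≤ (-(g - ((2 * i : ℕ) : ℝ))) := by push_cast; nlinarith
    have h2 : 0 ≤ (-(g - ((2 * i + 1 : ℕ) : ℝ))) := by push_cast; nlinarith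
    have h3 : 0 ≤ c g (2 * i) * (-(g - ((2 * i : ℕ) : ℝ))) *
        (-(g - ((2 * i + 1 : ℕ) : ℝ))) := mul_nonneg (mul_nonneg ih h1) h2
    have h4 : 0 ≤ c g (2 * i) * (-(g - ((2 * i : ℕ) : ℝ))) *
        (-(g - ((2 * i + 1 : ℕ) : ℝ))) / (((2 * i : ℕ) : ℝ) + 1) :=
      div_nonneg h3 (by positivity)
    calc (0 : ℝ) ≤ _ := h4
      _ = _ := by ring

theorem sum_two {M : Type*} [AddCommMonoid M] (f : ℕ → M) (n : ℕ) :
    ∑ k ∈ range (2 * n), f k = ∑ j ∈ range n, (f (2 * j) + f (2 * j + 1)) := by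
  induction n with
  | zero => simp
  | succ n ih =>
    rw [show 2 * (n + 1) = 2 * n + 1 + 1 by ring, sum_range_succ, sum_range_succ,
      sum_range_succ, ih, add_assoc]

theorem pair_sum (g : ℝ) (k : ℕ) : c g k + c g (k + 1) = c g k * (g + 1) / (k + 1) := by
  rw [c_succ]
  have h2 : ((k : ℝ) + 1) ≠ 0 := by positivity
  field_simp
  ring

/-- Partial sums of `(1 + 1) ^ g` are nonnegative, `-1 ≤ g ≤ 0`. -/
theorem S_nonneg_base (g : ℝ) (h : -1 ≤ g) (h' : g ≤ 0) (n : ℕ) :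
    0 ≤ ∑ k ∈ range n, c g k := by
  have key : ∀ m : ℕ, 0 ≤ ∑ k ∈ range (2 * m), c g k := by
    intro m
    rw [sum_two]
    apply sum_nonneg
    intro j _
    rw [pair_sum]
    apply div_nonneg _ (by positivity)
    exact mul_nonneg (c_even_nonneg g h' j) (by linarith)
  rcases Nat.even_or_odd n with ⟨m, hm⟩ | ⟨m, hm⟩
  · rw [hm, ← two_mul]; exact key m
  · rw [hm, sum_range_succ]
    exact add_nonneg (key m) (c_even_nonneg g h' m)

theorem S_pascal (g : ℝ) (n : ℕ) :
    ∑ k ∈ range (n + 1), c (g + 1) k = ∑ k ∈ range (n + 1), c g k + ∑ k ∈ range n, c g k := by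
  induction n with
  | zero => simp [c_zero]
  | succ n ih =>
    rw [sum_range_succ, ih, sum_range_succ (fun k => c g k) (n + 1), c_pascal,
      sum_range_succ (fun k => c g k) n]
    ring

/-- Partial sums of `(1 + 1) ^ g` are nonnegative, `-1 ≤ g`. -/
theorem S_nonneg (g : ℝ) (h : -1 ≤ g) (n : ℕ) : 0 ≤ ∑ k ∈ range n, c g k := by
  have key : ∀ M : ℕ, ∀ g : ℝ, -1 ≤ g → g ≤ M → ∀ n : ℕ, 0 ≤ ∑ k ∈ range n, c g k := by
    intro M
    induction M with
    | zero => intro g h h' n; exact S_nonneg_base g h (by simpa using h') n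
    | succ M ih =>
      intro g h h' n
      by_cases hg : g ≤ 0
      · exact S_nonneg_base g h hg n
      · push Not at hg
        push_cast at h'
        cases n with
        | zero => simp
        | succ n =>
          have h1 := S_pascal (g - 1) n
          rw [sub_add_cancel] at h1
          rw [h1]
          exact add_nonneg (ih (g - 1) (by linarith) (by linarith) _)
            (ih (g - 1) (by linarith) (by linarith) _)
  obtain ⟨M, hM⟩ := exists_nat_ge g
  exact key M g h hM n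

/-- `∑ c (a) (2 j)`, `j ≤ J`. -/
theorem even_sum (g : ℝ) (J : ℕ) :
    ∑ j ∈ range (J + 1), c (g + 1) (2 * j) = ∑ k ∈ range (2 * J + 1), c g k := by
  induction J with
  | zero => simp [c_zero]
  | succ J ih =>
    rw [sum_range_succ, ih, show 2 * (J + 1) + 1 = (2 * J + 1) + 1 + 1 by ring,
      show 2 * (J + 1) = (2 * J + 1) + 1 by ring, c_pascal,
      sum_range_succ _ (2 * J + 1 + 1), sum_range_succ _ (2 * J + 1)]
    ring

theorem odd_sum (g : ℝ) (J : ℕ) :
    ∑ j ∈ range J, c (g + 1) (2 * j + 1) = ∑ k ∈ range (2 * J), c g k := by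
  induction J with
  | zero => simp
  | succ J ih =>
    rw [sum_range_succ, ih, show 2 * (J + 1) = (2 * J) + 1 + 1 by ring, c_pascal,
      sum_range_succ _ (2 * J + 1), sum_range_succ _ (2 * J)]
    ring

end Run7.h830.Br
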