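import Mathlib
import Pool.Agent.Run7.h830.BrBinom

set_option autoImplicit false

/-!
# The case `a ≥ 1`: grouping consecutive terms
-/

namespace Run7.h830.Br

open Finset

theorem norm_sq_aux (a b : ℝ) (x : ℂ) (hx : ‖x‖ = 1) :
    ‖(a : ℂ) + b * x‖ ^ 2 = (a + b) ^ 2 - 2 * a * b * (1 - x.re) := by
  have h1 : x.re ^ 2 + x.im ^ 2 = 1 := by
    have := Complex.sq_norm x
    rw [hx, Complex.normSq_apply] at this
    nlinarith
  rw [Complex.sq_norm, Complex.normSq_apply]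
  simp only [Complex.add_re, Complex.add_im, Complex.mul_re, Complex.mul_im, Complex.ofReal_re,
    Complex.ofReal_im, zero_mul, sub_zero, add_zero, zero_add]
  linear_combination b ^ 2 * h1

theorem re_mem (x : ℂ) (hx : ‖x‖ = 1) : -1 ≤ x.re ∧ x.re ≤ 1 := by
  have := Complex.abs_re_le_norm x
  rw [hx] at this
  exact abs_le.1 this

theorem pair_bound (al : ℝ) (k : ℕ) (hal : 0 < al + 1) (hk : 0 ≤ c al k) (x : ℂ) (hx : ‖x‖ = 1) :
    ‖(c al k : ℂ) + (c al (k + 1) : ℂ) * x‖ ≤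
      c al k + c al (k + 1) - (c al k * (al - k)) / (al + 1) * (1 - x.re) := by
  obtain ⟨hr1, hr2⟩ := re_mem x hx
  rcases hk.eq_or_lt with h0 | hpos
  · rw [c_succ, ← h0]; simp
  · have hs : 0 < c al k + c al (k + 1) := by
      rw [pair_sum]; positivity
    have hb : c al (k + 1) = c al k * (al - k) / (k + 1) := c_succ al k
    set a := c al k with ha
    set b := c al (k + 1) with hb'
    have hab : a * (al - k) / (al + 1) = a * b / (a + b) := by
      have e1 : a + b = a * (al + 1) / (k + 1) := pair_sum al k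
      have h2 : ((k : ℝ) + 1) ≠ 0 := by positivity
      rw [e1, hb]
      field_simp
    rw [hab]
    set w := 1 - x.re with hw
    have hw0 : 0 ≤ w := by rw [hw]; linarith
    have hw2 : w ≤ 2 := by rw [hw]; linarith
    have hnn : 0 ≤ a + b - a * b / (a + b) * w := by
      have e : a + b - a * b / (a + b) * w = ((a + b) ^ 2 - a * b * w) / (a + b) := by
        field_simp
      rw [e]
      apply div_nonneg _ hs.le
      rcases le_total 0 (a * b) with h | h
      · nlinarith [mul_le_mul_of_nonneg_left hw2 h, sq_nonneg (a - b), sq_nonneg (a + b)]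
      · nlinarith [mul_nonneg (neg_nonneg.2 h) hw0, sq_nonneg (a + b)]
    apply (pow_le_pow_iff_left₀ (norm_nonneg _) hnn two_ne_zero).1
    rw [norm_sq_aux a b x hx]
    have e : (a + b - a * b / (a + b) * w) ^ 2 =
        (a + b) ^ 2 - 2 * a * b * w + (a * b / (a + b) * w) ^ 2 := by
      field_simp
      ring
    rw [e]
    nlinarith [sq_nonneg (a * b / (a + b) * w)]

/-- The sum over `k < n` of `c_k x ^ k`. -/
noncomputable def P (al : ℝ) (n : ℕ) (x : ℂ) : ℂ := ∑ k ∈ range n, (c al k : ℂ) * x ^ k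

theorem norm_pair (al : ℝ) (k : ℕ) (x : ℂ) (hx : ‖x‖ = 1) :
    ‖(c al k : ℂ) * x ^ k + (c al (k + 1) : ℂ) * x ^ (k + 1)‖ =
      ‖(c al k : ℂ) + (c al (k + 1) : ℂ) * x‖ := by
  rw [show (c al k : ℂ) * x ^ k + (c al (k + 1) : ℂ) * x ^ (k + 1) =
    x ^ k * ((c al k : ℂ) + (c al (k + 1) : ℂ) * x) by ring, norm_mul, norm_pow, hx, one_pow,
    one_mul]

/-- odd `N` -/
theorem bound_oddN (al : ℝ) (n : ℕ) (hal : 1 ≤ al) (hc : ∀ j, 0 ≤ c al (2 * j)) (x : ℂ)
    (hx : ‖x‖ = 1) : ‖P al (2 * (n + 1)) x‖ ≤ ∑ k ∈ range (2 * (n + 1)), c al k := by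
  obtain ⟨hr1, hr2⟩ := re_mem x hx
  unfold P
  rw [sum_two, sum_two]
  have h1 : ‖∑ j ∈ range (n + 1), ((c al (2 * j) : ℂ) * x ^ (2 * j) +
      (c al (2 * j + 1) : ℂ) * x ^ (2 * j + 1))‖ ≤
      ∑ j ∈ range (n + 1), (c al (2 * j) + c al (2 * j + 1) -
        (c al (2 * j) * (al - (2 * j : ℕ))) / (al + 1) * (1 - x.re)) := by
    apply norm_sum_le_of_le
    intro j _
    rw [norm_pair al _ x hx]
    exact pair_bound al (2 * j) (by linarith) (hc j) x hx
  have h2 : ∑ j ∈ range (n + 1), (c al (2 * j) + c al (2 * j + 1) -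
        (c al (2 * j) * (al - (2 * j : ℕ))) / (al + 1) * (1 - x.re)) =
      ∑ j ∈ range (n + 1), (c al (2 * j) + c al (2 * j + 1)) -
        (al / (al + 1)) * (1 - x.re) * ∑ j ∈ range (n + 1), c (al - 1) (2 * j) := by
    rw [sum_sub_distrib, mul_sum]
    congr 1
    apply sum_congr rfl
    intro j _
    have e1 := c_succ' al (2 * j)
    have e2 := c_absorb (al - 1) (2 * j)
    rw [sub_add_cancel] at e2
    rw [← e1, e2]
    ring
  have h3 : 0 ≤ ∑ j ∈ range (n + 1), c (al - 1) (2 * j) := by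
    have := even_sum (al - 2) n
    rw [show al - 2 + 1 = al - 1 by ring] at this
    rw [this]
    exact S_nonneg _ (by linarith) _
  have h4 : 0 ≤ (al / (al + 1)) * (1 - x.re) * ∑ j ∈ range (n + 1), c (al - 1) (2 * j) :=
    mul_nonneg (mul_nonneg (by positivity) (by linarith)) h3
  rw [h2] at h1
  linarith

/-- even `N` -/
theorem bound_evenN (al : ℝ) (n : ℕ) (hal : 1 ≤ al) (hc : ∀ j, 0 ≤ c al (2 * j + 1)) (x : ℂ)
    (hx : ‖x‖ = 1) : ‖P al (2 * (n + 1)) x‖ ≤ ∑ k ∈ range (2 * (n + 1)), c al k := by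
  obtain ⟨hr1, hr2⟩ := re_mem x hx
  have sh : ∀ {M : Type} [AddCommMonoid M] (f : ℕ → M), ∑ k ∈ range (2 * (n + 1)), f k =
      f 0 + ∑ j ∈ range n, (f (2 * j + 1) + f (2 * j + 1 + 1)) + f (2 * n + 1) := by
    intro M _ f
    rw [show 2 * (n + 1) = 2 * n + 1 + 1 by ring, sum_range_succ, sum_range_succ',
      sum_two (fun k => f (k + 1)) n, add_comm (∑ j ∈ range n, _) (f 0)]
  unfold P
  rw [sh, sh]
  have h1 : ‖∑ j ∈ range n, ((c al (2 * j + 1) : ℂ) * x ^ (2 * j + 1) +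
      (c al (2 * j + 1 + 1) : ℂ) * x ^ (2 * j + 1 + 1))‖ ≤
      ∑ j ∈ range n, (c al (2 * j + 1) + c al (2 * j + 1 + 1) -
        (c al (2 * j + 1) * (al - (2 * j + 1 : ℕ))) / (al + 1) * (1 - x.re)) := by
    apply norm_sum_le_of_le
    intro j _
    rw [norm_pair al _ x hx]
    exact pair_bound al (2 * j + 1) (by linarith) (hc j) x hx
  have h2 : ∑ j ∈ range n, (c al (2 * j + 1) + c al (2 * j + 1 + 1) -
        (c al (2 * j + 1) * (al - (2 * j + 1 : ℕ))) / (al + 1) * (1 - x.re)) =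
      ∑ j ∈ range n, (c al (2 * j + 1) + c al (2 * j + 1 + 1)) -
        (al / (al + 1)) * (1 - x.re) * ∑ j ∈ range n, c (al - 1) (2 * j + 1) := by
    rw [sum_sub_distrib, mul_sum]
    congr 1
    apply sum_congr rfl
    intro j _
    have e1 := c_succ' al (2 * j + 1)
    have e2 := c_absorb (al - 1) (2 * j + 1)
    rw [sub_add_cancel] at e2
    rw [← e1, e2]
    ring
  have h3 : 0 ≤ ∑ j ∈ range n, c (al - 1) (2 * j + 1) := by
    have := odd_sum (al - 2) n
    rw [show al - 2 + 1 = al - 1 by ring] at this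
    rw [this]
    exact S_nonneg _ (by linarith) _
  have h4 : 0 ≤ (al / (al + 1)) * (1 - x.re) * ∑ j ∈ range n, c (al - 1) (2 * j + 1) :=
    mul_nonneg (mul_nonneg (by positivity) (by linarith)) h3
  rw [h2] at h1
  have h5 : ‖(c al 0 : ℂ) * x ^ 0‖ = c al 0 := by rw [c_zero]; simp
  have h6 : ‖(c al (2 * n + 1) : ℂ) * x ^ (2 * n + 1)‖ = c al (2 * n + 1) := by
    rw [norm_mul, norm_pow, hx, one_pow, mul_one, Complex.norm_real, Real.norm_eq_abs,
      abs_of_nonneg (hc n)]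
  calc _ ≤ ‖(c al 0 : ℂ) * x ^ 0‖ + ‖∑ j ∈ range n, ((c al (2 * j + 1) : ℂ) * x ^ (2 * j + 1) +
      (c al (2 * j + 1 + 1) : ℂ) * x ^ (2 * j + 1 + 1))‖ +
      ‖(c al (2 * n + 1) : ℂ) * x ^ (2 * n + 1)‖ := norm_add₃_le
    _ ≤ _ := by rw [h5, h6]; linarith

/-- The case `a ≥ 1`. -/
theorem case_ge_one (al : ℝ) (hal : 1 ≤ al) (n : ℕ) (x : ℂ) (hx : ‖x‖ = 1) :
    ‖P al (2 * (n + 1)) x‖ ≤ ∑ k ∈ range (2 * (n + 1)), c al k := by
  set N := ⌊al⌋₊ with hN
  have h1 : (N : ℝ) ≤ al := Nat.floor_le (by linarith)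
  have h2 : al ≤ N + 1 := (Nat.lt_floor_add_one al).le
  rcases Nat.even_or_odd N with ⟨M, hM⟩ | ⟨M, hM⟩
  · apply bound_evenN al n hal _ x hx
    intro j
    rcases le_total (2 * j + 1) (N + 1) with h | h
    · exact c_nonneg_of_le al N h1 _ h
    · have := c_nonneg_of_parity al N h1 h2 (j - M)
      rwa [show N + 1 + 2 * (j - M) = 2 * j + 1 by omega] at this
  · apply bound_oddN al n hal _ x hx
    intro j
    rcases le_total (2 * j) (N + 1) with h | h
    · exact c_nonneg_of_le al N h1 _ h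
    · have := c_nonneg_of_parity al N h1 h2 (j - (M + 1))
      rwa [show N + 1 + 2 * (j - (M + 1)) = 2 * j by omega] at this

end Run7.h830.Br
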