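import Mathlib
import Pool.Agent.Run7.h830.BrPair

set_option autoImplicit false

/-!
# The case `0 < a < 1`

The partial sum `P` of the binomial series satisfies `(1 + z) P' = a P - n c_n z ^ (n - 1)`, so
`P (t x) (1 + t x) ^ (-a)` has derivative `- x n c_n (t x) ^ (n - 1) (1 + t x) ^ (- a - 1)`, and
`|1 + t x| ≥ (1 + t) |1 + x| / 2`.
-/

namespace Run7.h830.Br

open Finset Set

/-- The derivative of `P`. -/
noncomputable def D (al : ℝ) (n : ℕ) (z : ℂ) : ℂ :=
  ∑ k ∈ range n, (c al k : ℂ) * ((k : ℂ) * z ^ (k - 1))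

theorem hasDerivAt_P (al : ℝ) (n : ℕ) (z : ℂ) : HasDerivAt (P al n) (D al n z) z := by
  unfold P D
  have := HasDerivAt.fun_sum (u := range n) (A := fun k z => (c al k : ℂ) * z ^ k)
    (A' := fun k => (c al k : ℂ) * ((k : ℂ) * z ^ (k - 1))) (x := z)
    (fun k _ => (hasDerivAt_pow k z).const_mul _)
  exact this

theorem ode (al : ℝ) (n : ℕ) (z : ℂ) :
    (1 + z) * D al (n + 1) z = al * P al (n + 1) z - (n + 1) * (c al (n + 1) : ℂ) * z ^ n := by
  induction n with
  | zero => simp [D, P, c_zero, c_one]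
  | succ n ih =>
    have e1 : D al (n + 1 + 1) z = D al (n + 1) z + (c al (n + 1) : ℂ) *
        (((n + 1 : ℕ) : ℂ) * z ^ n) := by
      unfold D; rw [sum_range_succ]; simp
    have e2 : P al (n + 1 + 1) z = P al (n + 1) z + (c al (n + 1) : ℂ) * z ^ (n + 1) := by
      unfold P; rw [sum_range_succ]
    have e3 : ((((n : ℝ) + 1) + 1 : ℝ) : ℂ) * (c al (n + 1 + 1) : ℂ) =
        (c al (n + 1) : ℂ) * ((al : ℂ) - ((n : ℂ) + 1)) := by
      have := c_succ' al (n + 1)
      rw [← Complex.ofReal_mul]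
      push_cast at this
      rw [this]
      push_cast
      ring
    rw [e1, e2, mul_add, ih]
    push_cast at e3 ⊢
    linear_combination (z ^ (n + 1)) * e3

theorem lower (t : ℝ) (x : ℂ) (ht : 0 ≤ t) (hx : ‖x‖ = 1) :
    (‖1 + x‖ / 2) * (1 + t) ≤ ‖1 + (t : ℂ) * x‖ := by
  obtain ⟨hr1, hr2⟩ := re_mem x hx
  apply (pow_le_pow_iff_left₀ (by positivity) (norm_nonneg _) two_ne_zero).1
  have h1 := norm_sq_aux 1 1 x hx
  have h2 := norm_sq_aux 1 t x hx
  simp only [Complex.ofReal_one, one_mul] at h1 h2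
  rw [mul_pow, div_pow, h1, h2]
  nlinarith [mul_nonneg (sq_nonneg (1 - t)) (sub_nonneg.2 hr2)]

theorem hasDerivAt_F (al : ℝ) (n : ℕ) (x : ℂ) (z : ℂ) (hz : 1 + z * x ∈ Complex.slitPlane) :
    HasDerivAt (fun z : ℂ => P al (n + 1) (z * x) * (1 + z * x) ^ (-(al : ℂ)))
      (-(x * ((n + 1) * (c al (n + 1) : ℂ) * (z * x) ^ n)) * (1 + z * x) ^ (-(al : ℂ) - 1)) z := by
  have h1 : HasDerivAt (fun z : ℂ => z * x) x z := by
    simpa using (hasDerivAt_id z).mul_const x
  have h2 : HasDerivAt (fun z : ℂ => P al (n + 1) (z * x)) (D al (n + 1) (z * x) * x) z :=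
    HasDerivAt.comp (h₂ := P al (n + 1)) z (hasDerivAt_P al (n + 1) (z * x)) h1
  have h3 : HasDerivAt (fun z : ℂ => 1 + z * x) x z := h1.const_add 1
  have h4 := h3.cpow_const (c := -(al : ℂ)) hz
  have h5 := h2.mul h4
  have hne : (1 + z * x) ≠ 0 := Complex.slitPlane_ne_zero hz
  have h6 : (1 + z * x) ^ (-(al : ℂ)) = (1 + z * x) ^ (-(al : ℂ) - 1) * (1 + z * x) := by
    rw [Complex.cpow_sub _ _ hne, Complex.cpow_one]
    field_simp
  refine h5.congr_deriv ?_
  have h7 := ode al n (z * x)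
  rw [h6]
  linear_combination (x * (1 + z * x) ^ (-(al : ℂ) - 1)) * h7

theorem slit (x : ℂ) (hx : ‖x‖ = 1) (hx' : 0 < ‖1 + x‖) (t : ℝ) (ht : 0 ≤ t) (ht' : t ≤ 1) :
    1 + (t : ℂ) * x ∈ Complex.slitPlane := by
  obtain ⟨hr1, hr2⟩ := re_mem x hx
  left
  have h1 := norm_sq_aux 1 1 x hx
  simp only [Complex.ofReal_one, one_mul] at h1
  have h2 : 0 < ‖1 + x‖ ^ 2 := by positivity
  have h3 : -1 < x.re := by nlinarith
  simp only [Complex.add_re, Complex.one_re, Complex.mul_re, Complex.ofReal_re,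
    Complex.ofReal_im, zero_mul, sub_zero]
  nlinarith

/-- The real function for `x = 1`. -/
noncomputable def F1 (al : ℝ) (n : ℕ) (t : ℝ) : ℝ :=
  (∑ k ∈ range n, c al k * t ^ k) * (1 + t) ^ (-al)

theorem hasDerivAt_F1 (al : ℝ) (n : ℕ) (t : ℝ) (ht : 0 ≤ t) :
    HasDerivAt (F1 al (n + 1))
      (-((n + 1) * c al (n + 1) * t ^ n) * (1 + t) ^ (-al - 1)) t := by
  have hpos : 0 < 1 + t := by linarith
  have h1 : HasDerivAt (fun t : ℝ => ∑ k ∈ range (n + 1), c al k * t ^ k)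
      (∑ k ∈ range (n + 1), c al k * ((k : ℝ) * t ^ (k - 1))) t :=
    HasDerivAt.fun_sum (u := range (n + 1)) (A := fun k z => c al k * z ^ k)
      (A' := fun k => c al k * ((k : ℝ) * t ^ (k - 1))) (x := t)
      (fun k _ => (hasDerivAt_pow k t).const_mul _)
  have h2 : HasDerivAt (fun t : ℝ => 1 + t) 1 t := (hasDerivAt_id t).const_add 1
  have h3 := h2.rpow_const (p := -al) (Or.inl hpos.ne')
  have h4 := h1.mul h3
  refine HasDerivAt.congr_deriv h4 ?_
  have h5 : (1 + t) ^ (-al) = (1 + t) ^ (-al - 1) * (1 + t) := by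
    rw [Real.rpow_sub hpos, Real.rpow_one]
    field_simp
  have h6 : (1 + t) * ∑ k ∈ range (n + 1), c al k * ((k : ℝ) * t ^ (k - 1)) =
      al * ∑ k ∈ range (n + 1), c al k * t ^ k - (n + 1) * c al (n + 1) * t ^ n := by
    have := ode al n (t : ℂ)
    unfold D P at this
    exact_mod_cast this
  rw [h5]
  linear_combination ((1 + t) ^ (-al - 1)) * h6

theorem F1_le (al : ℝ) (hal : 0 < al) (n : ℕ) (hc : c al (n + 1) ≤ 0) :
    F1 al (n + 1) 1 ≤ 1 - c al (n + 1) := by
  have h := image_norm_le_of_norm_deriv_right_le_deriv_boundary' (a := 0) (b := 1)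
    (f := F1 al (n + 1)) (f' := fun t => -((n + 1) * c al (n + 1) * t ^ n) * (1 + t) ^ (-al - 1))
    (B := fun t => 1 - c al (n + 1) * t ^ (n + 1))
    (B' := fun t => - (c al (n + 1) * ((n + 1 : ℕ) * t ^ n)))
    (fun t ht => (hasDerivAt_F1 al n t ht.1).continuousAt.continuousWithinAt)
    (fun t ht => (hasDerivAt_F1 al n t ht.1).hasDerivWithinAt)
    (by
      have : F1 al (n + 1) 0 = 1 := by
        unfold F1
        rw [sum_range_succ']
        simp [c_zero]
      rw [this]; simp)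
    (by fun_prop)
    (fun t _ => by
      have := ((hasDerivAt_pow (n + 1) t).const_mul (c al (n + 1))).const_sub 1
      exact this.hasDerivWithinAt)
    (by
      intro t ht
      have hpos : 0 < 1 + t := by linarith [ht.1]
      have h1 : (1 + t) ^ (-al - 1) ≤ 1 :=
        Real.rpow_le_one_of_one_le_of_nonpos (by linarith [ht.1]) (by linarith)
      have h2 : 0 ≤ (1 + t) ^ (-al - 1) := by positivity
      have h3 : 0 ≤ -((n + 1) * c al (n + 1) * t ^ n) := by
        have : 0 ≤ t ^ n := pow_nonneg ht.1 n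
        have : 0 ≤ ((n : ℝ) + 1) * (-c al (n + 1)) * t ^ n := by
          apply mul_nonneg (mul_nonneg (by positivity) (by linarith)) this
        linarith
      rw [Real.norm_eq_abs, abs_of_nonneg (mul_nonneg h3 h2)]
      push_cast
      calc _ ≤ -((n + 1) * c al (n + 1) * t ^ n) * 1 := mul_le_mul_of_nonneg_left h1 h3
        _ = _ := by ring)
  have h2 := h (right_mem_Icc.2 zero_le_one)
  simp only [one_pow, mul_one] at h2
  exact (le_abs_self _).trans h2

theorem main_bound (al : ℝ) (hal : 0 < al) (n : ℕ) (hc : c al (n + 1) ≤ 0) (x : ℂ) (hx : ‖x‖ = 1)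
    (hx' : 0 < ‖1 + x‖) :
    ‖P al (n + 1) x‖ * ‖1 + x‖ ^ (-al) ≤
      1 + (‖1 + x‖ / 2) ^ (-al - 1) * (F1 al (n + 1) 1 - 1) := by
  have hκ : 0 < ‖1 + x‖ / 2 := by positivity
  have hd : ∀ t ∈ Icc (0 : ℝ) 1, HasDerivAt
      (fun t : ℝ => P al (n + 1) ((t : ℂ) * x) * (1 + (t : ℂ) * x) ^ (-(al : ℂ)))
      (-(x * ((n + 1) * (c al (n + 1) : ℂ) * ((t : ℂ) * x) ^ n)) *
        (1 + (t : ℂ) * x) ^ (-(al : ℂ) - 1)) t := by
    intro t ht
    exact (hasDerivAt_F al n x (t : ℂ) (slit x hx hx' t ht.1 ht.2)).comp_ofReal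
  have h := image_norm_le_of_norm_deriv_right_le_deriv_boundary' (a := 0) (b := 1)
    (f := fun t : ℝ => P al (n + 1) ((t : ℂ) * x) * (1 + (t : ℂ) * x) ^ (-(al : ℂ)))
    (f' := fun t : ℝ => -(x * ((n + 1) * (c al (n + 1) : ℂ) * ((t : ℂ) * x) ^ n)) *
        (1 + (t : ℂ) * x) ^ (-(al : ℂ) - 1))
    (B := fun t => 1 + (‖1 + x‖ / 2) ^ (-al - 1) * (F1 al (n + 1) t - 1))
    (B' := fun t => (‖1 + x‖ / 2) ^ (-al - 1) *
      (-((n + 1) * c al (n + 1) * t ^ n) * (1 + t) ^ (-al - 1)))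
    (fun t ht => (hd t ht).continuousAt.continuousWithinAt)
    (fun t ht => (hd t ⟨ht.1, ht.2.le⟩).hasDerivWithinAt)
    (by
      have e1 : F1 al (n + 1) 0 = 1 := by
        unfold F1
        rw [sum_range_succ']
        simp [c_zero]
      have e2 : P al (n + 1) 0 = 1 := by
        unfold P
        rw [sum_range_succ']
        simp [c_zero]
      simp [e1, e2])
    (fun t ht => by
      have := (((hasDerivAt_F1 al n t ht.1).sub_const 1).const_mul
        ((‖1 + x‖ / 2) ^ (-al - 1))).const_add 1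
      exact this.continuousAt.continuousWithinAt)
    (fun t ht => by
      have := (((hasDerivAt_F1 al n t ht.1).sub_const 1).const_mul
        ((‖1 + x‖ / 2) ^ (-al - 1))).const_add 1
      exact this.hasDerivWithinAt)
    (by
      intro t ht
      have hpos : 0 < 1 + t := by linarith [ht.1]
      have hsl := slit x hx hx' t ht.1 ht.2.le
      have hne : (1 + (t : ℂ) * x) ≠ 0 := Complex.slitPlane_ne_zero hsl
      have e1 : ‖(1 + (t : ℂ) * x) ^ (-(al : ℂ) - 1)‖ = ‖1 + (t : ℂ) * x‖ ^ (-al - 1) := by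
        rw [show (-(al : ℂ) - 1) = ((-al - 1 : ℝ) : ℂ) by push_cast; ring]
        exact Complex.norm_cpow_real _ _
      have e2 : ‖-(x * ((n + 1) * (c al (n + 1) : ℂ) * ((t : ℂ) * x) ^ n))‖ =
          -((n + 1) * c al (n + 1) * t ^ n) := by
        rw [norm_neg, norm_mul, hx, one_mul, norm_mul, norm_mul, norm_pow, norm_mul, hx, mul_one,
          Complex.norm_real, Complex.norm_real, Real.norm_eq_abs, Real.norm_eq_abs,
          abs_of_nonneg ht.1, abs_of_nonpos hc]
        have : ‖((n : ℂ) + 1)‖ = (n : ℝ) + 1 := by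
          rw [show ((n : ℂ) + 1) = (((n : ℝ) + 1 : ℝ) : ℂ) by push_cast; ring, Complex.norm_real,
            Real.norm_eq_abs, abs_of_nonneg (by positivity)]
        rw [this]
        ring
      rw [norm_mul, e1, e2]
      have h1 : ‖1 + (t : ℂ) * x‖ ^ (-al - 1) ≤ ((‖1 + x‖ / 2) * (1 + t)) ^ (-al - 1) :=
        Real.rpow_le_rpow_of_nonpos (by positivity) (lower t x ht.1 hx) (by linarith)
      rw [Real.mul_rpow hκ.le hpos.le] at h1
      have h3 : 0 ≤ -((n + 1) * c al (n + 1) * t ^ n) := by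
        have : 0 ≤ t ^ n := pow_nonneg ht.1 n
        have : 0 ≤ ((n : ℝ) + 1) * (-c al (n + 1)) * t ^ n := by
          apply mul_nonneg (mul_nonneg (by positivity) (by linarith)) this
        linarith
      calc _ ≤ -((n + 1) * c al (n + 1) * t ^ n) *
            ((‖1 + x‖ / 2) ^ (-al - 1) * (1 + t) ^ (-al - 1)) := mul_le_mul_of_nonneg_left h1 h3
        _ = _ := by ring)
  have h2 := h (right_mem_Icc.2 zero_le_one)
  simp only [Complex.ofReal_one, one_mul] at h2
  rw [norm_mul, show (-(al : ℂ)) = ((-al : ℝ) : ℂ) by push_cast; ring,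
    Complex.norm_cpow_real] at h2
  exact h2

end Run7.h830.Br
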