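import Mathlib
import Pool.Agent.Run7.h830.BrSmall

set_option autoImplicit false

/-!
# The inequality for odd coefficients, all `a > 0`
-/

namespace Run7.h830.Br

open Finset

/-- `∏ (1 - a / j)`, `1 ≤ j ≤ m`. -/
noncomputable def T (al : ℝ) (m : ℕ) : ℝ := ∏ j ∈ range m, (1 - al / ((j : ℝ) + 1))

theorem T_succ (al : ℝ) (m : ℕ) : T al (m + 1) = T al m * (1 - al / ((m : ℝ) + 1)) := by
  unfold T; rw [prod_range_succ]

theorem T_nonneg (al : ℝ) (h0 : 0 < al) (h1 : al < 1) (m : ℕ) : 0 ≤ T al m := by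
  unfold T
  apply prod_nonneg
  intro j _
  have : al / ((j : ℝ) + 1) ≤ 1 := by
    rw [div_le_one (by positivity)]
    have : (0 : ℝ) ≤ j := by positivity
    linarith
  linarith

theorem T_anti (al : ℝ) (h0 : 0 < al) (h1 : al < 1) (m : ℕ) : T al (m + 1) ≤ T al m := by
  rw [T_succ]
  have h2 := T_nonneg al h0 h1 m
  have : 0 ≤ al / ((m : ℝ) + 1) := by positivity
  nlinarith

theorem T_le_T (al : ℝ) (h0 : 0 < al) (h1 : al < 1) (a b : ℕ) (h : a ≤ b) : T al b ≤ T al a := by
  induction b, h using Nat.le_induction with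
  | base => exact le_rfl
  | succ b _ ih => exact (T_anti al h0 h1 b).trans ih

theorem c_eq_T (al : ℝ) (m : ℕ) : c al (m + 1) = (-1) ^ m * (al * T al m / ((m : ℝ) + 1)) := by
  induction m with
  | zero => simp [c_one, T]
  | succ m ih =>
    rw [c_succ, ih, T_succ]
    have h2 : ((m : ℝ) + 1) ≠ 0 := by positivity
    have h3 : ((m : ℝ) + 1 + 1) ≠ 0 := by positivity
    push_cast
    field_simp
    ring

theorem P_neg_one (al : ℝ) (m : ℕ) : P al (m + 1) (-1) = (T al m : ℂ) := by
  induction m with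
  | zero => simp [P, c_zero, T]
  | succ m ih =>
    unfold P at ih ⊢
    rw [sum_range_succ, ih, c_eq_T, T_succ]
    have h2 : ((m : ℂ) + 1) ≠ 0 := by exact_mod_cast Nat.succ_ne_zero m
    push_cast
    have h4 : ((-1 : ℂ)) ^ m * (-1) ^ m = 1 := by
      rw [← mul_pow]; simp
    have : (-1 : ℂ) ^ m * (al * T al m / ((m : ℂ) + 1)) * (-1) ^ (m + 1) =
        -((-1 : ℂ) ^ m * (-1) ^ m * (al * T al m / ((m : ℂ) + 1))) := by
      rw [pow_succ]; ring
    rw [this, h4]
    field_simp
    ring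

theorem pow_sub_pow (x : ℂ) (hx : ‖x‖ = 1) (k : ℕ) : ‖x ^ k - (-1) ^ k‖ ≤ k * ‖1 + x‖ := by
  induction k with
  | zero => simp
  | succ k ih =>
    have e : x ^ (k + 1) - (-1) ^ (k + 1) = x ^ k * (1 + x) - (x ^ k - (-1) ^ k) := by ring
    rw [e]
    calc _ ≤ ‖x ^ k * (1 + x)‖ + ‖x ^ k - (-1) ^ k‖ := norm_sub_le _ _
      _ ≤ ‖1 + x‖ + k * ‖1 + x‖ := by
        rw [norm_mul, norm_pow, hx, one_pow, one_mul]; linarith
      _ = _ := by push_cast; ring

theorem crude (al : ℝ) (h0 : 0 < al) (h1 : al < 1) (m : ℕ) (x : ℂ) (hx : ‖x‖ = 1) :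
    ‖P al (m + 1) x‖ ≤ T al m + al * m * ‖1 + x‖ := by
  have e : P al (m + 1) x = P al (m + 1) (-1) +
      ∑ k ∈ range (m + 1), (c al k : ℂ) * (x ^ k - (-1) ^ k) := by
    unfold P
    rw [← sum_add_distrib]
    apply sum_congr rfl
    intro k _
    ring
  have h2 : ‖∑ k ∈ range (m + 1), (c al k : ℂ) * (x ^ k - (-1) ^ k)‖ ≤ al * m * ‖1 + x‖ := by
    rw [sum_range_succ']
    simp only [pow_zero, sub_self, mul_zero, add_zero]
    have : al * m * ‖1 + x‖ = ∑ k ∈ range m, al * ‖1 + x‖ := by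
      rw [sum_const, card_range, nsmul_eq_mul]; ring
    rw [this]
    apply norm_sum_le_of_le
    intro k _
    rw [norm_mul, Complex.norm_real, Real.norm_eq_abs, c_eq_T, abs_mul, abs_pow, abs_neg, abs_one,
      one_pow, one_mul]
    have hT := T_nonneg al h0 h1 k
    have hT1 : T al k ≤ 1 := by
      have := T_le_T al h0 h1 0 k (Nat.zero_le _)
      simpa [T] using this
    rw [abs_of_nonneg (by positivity)]
    have h3 := pow_sub_pow x hx (k + 1)
    push_cast at h3
    calc _ ≤ (al * T al k / ((k : ℝ) + 1)) * (((k : ℝ) + 1) * ‖1 + x‖) :=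
          mul_le_mul_of_nonneg_left h3 (by positivity)
      _ = al * T al k * ‖1 + x‖ := by
          have h2 : ((k : ℝ) + 1) ≠ 0 := by positivity
          field_simp
      _ ≤ al * 1 * ‖1 + x‖ := by gcongr
      _ = _ := by ring
  rw [e]
  calc _ ≤ ‖P al (m + 1) (-1)‖ + _ := norm_add_le _ _
    _ ≤ T al m + al * m * ‖1 + x‖ := by
      rw [P_neg_one, Complex.norm_real, Real.norm_eq_abs, abs_of_nonneg (T_nonneg al h0 h1 m)]
      linarith

theorem S_lower (al : ℝ) (h0 : 0 < al) (h1 : al < 1) (n : ℕ) :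
    1 + al / 2 ≤ ∑ k ∈ range (2 * (n + 1 + 1)), c al k := by
  have key : ∀ n : ℕ, 1 + al / 2 ≤ ∑ k ∈ range (2 * (n + 1) + 1), c al k := by
    intro n
    induction n with
    | zero =>
      simp only [sum_range_succ, range_zero, sum_empty, c_zero, c_one]
      rw [c_succ, c_one]
      push_cast
      nlinarith [sq_nonneg al]
    | succ n ih =>
      rw [show 2 * (n + 1 + 1) + 1 = 2 * (n + 1) + 1 + 1 + 1 by ring, sum_range_succ,
        sum_range_succ _ (2 * (n + 1) + 1), add_assoc, pair_sum]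
      have h2 : 0 ≤ c al (2 * (n + 1) + 1) := by
        have := c_nonneg_of_parity al 0 (by simpa using h0.le) (by simpa using h1.le) (n + 1)
        rwa [show 0 + 1 + 2 * (n + 1) = 2 * (n + 1) + 1 by ring] at this
      have h3 : 0 ≤ c al (2 * (n + 1) + 1) * (al + 1) / ((2 * (n + 1) + 1 : ℕ) + 1) := by
        positivity
      linarith
  rw [show 2 * (n + 1 + 1) = 2 * (n + 1) + 1 + 1 by ring, sum_range_succ]
  have h2 : 0 ≤ c al (2 * (n + 1) + 1) := by
    have := c_nonneg_of_parity al 0 (by simpa using h0.le) (by simpa using h1.le) (n + 1)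
    rwa [show 0 + 1 + 2 * (n + 1) = 2 * (n + 1) + 1 by ring] at this
  have := key n
  linarith

theorem case_lt_one (al : ℝ) (h0 : 0 < al) (h1 : al < 1) (n : ℕ) (x : ℂ) (hx : ‖x‖ = 1) :
    ‖P al (2 * (n + 1 + 1)) x‖ ≤ ∑ k ∈ range (2 * (n + 1 + 1)), c al k := by
  -- the partial sum has the terms `k ≤ m`, `m = 2 n + 3`
  set m := 2 * n + 3 with hm
  have em : 2 * (n + 1 + 1) = m + 1 := by omega
  have hlow := S_lower al h0 h1 n
  rw [em] at hlow ⊢
  have hcm : c al (m + 1) = -(al * T al m / ((m : ℝ) + 1)) := by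
    rw [c_eq_T]
    have : (-1 : ℝ) ^ m = -1 := by
      rw [Odd.neg_one_pow]
      exact ⟨n + 1, by omega⟩
    rw [this]; ring
  have hTm := T_nonneg al h0 h1 m
  have hc : c al (m + 1) ≤ 0 := by
    rw [hcm]
    have : 0 ≤ al * T al m / ((m : ℝ) + 1) := by positivity
    linarith
  have hT2 : T al m ≤ (1 - al) * (1 - al / 2) := by
    have := T_le_T al h0 h1 2 m (by omega)
    have e : T al 2 = (1 - al) * (1 - al / 2) := by
      simp [T, prod_range_succ]
      left
      norm_num
    rwa [e] at this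
  by_cases hreg : (‖1 + x‖ / 2) * ((m : ℝ) + 1) < T al m
  · -- near `x = -1`
    have h2 := crude al h0 h1 m x hx
    have h3 : al * m * ‖1 + x‖ ≤ 2 * al * T al m := by
      have : (m : ℝ) * ‖1 + x‖ ≤ 2 * T al m := by
        have : 0 ≤ ‖1 + x‖ := norm_nonneg _
        nlinarith
      nlinarith
    have h4 : T al m * (1 + 2 * al) ≤ 1 + al / 2 := by
      have h5 : T al m * (1 + 2 * al) ≤ (1 - al) * (1 - al / 2) * (1 + 2 * al) :=
        mul_le_mul_of_nonneg_right hT2 (by linarith)
      have h6 : (1 - al) * (1 - al / 2) * (1 + 2 * al) ≤ 1 + al / 2 := by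
        have : (1 - al) * (1 - al / 2) * (1 + 2 * al) = 1 + al / 2 - al ^ 2 * (5 / 2 - al) := by
          ring
        rw [this]
        have : 0 ≤ al ^ 2 * (5 / 2 - al) := mul_nonneg (sq_nonneg _) (by linarith)
        linarith
      linarith
    linarith
  · push Not at hreg
    have hm1 : (0 : ℝ) < (m : ℝ) + 1 := by positivity
    have hTpos : 0 < T al m := by
      unfold T
      apply prod_pos
      intro j _
      have : al / ((j : ℝ) + 1) < 1 := by
        rw [div_lt_one (by positivity)]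
        have : (0 : ℝ) ≤ j := by positivity
        linarith
      linarith
    have hκ : 0 < ‖1 + x‖ / 2 := by
      by_contra hcon
      push Not at hcon
      nlinarith
    have hx' : 0 < ‖1 + x‖ := by linarith
    have hmb := main_bound al h0 m hc x hx hx'
    have hF := F1_le al h0 m hc
    set κ := ‖1 + x‖ / 2 with hκd
    set K := F1 al (m + 1) 1 - 1 with hK
    have hKle : K ≤ al * κ := by
      have : K ≤ al * T al m / ((m : ℝ) + 1) := by rw [hK]; linarith
      refine this.trans ?_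
      rw [div_le_iff₀ hm1]
      nlinarith
    have hS : ∑ k ∈ range (m + 1), c al k = 2 ^ al * (1 + K) := by
      have : F1 al (m + 1) 1 = (∑ k ∈ range (m + 1), c al k) * 2 ^ (-al) := by
        unfold F1
        simp only [one_pow, mul_one]
        norm_num
      have e1 : 1 + K = (∑ k ∈ range (m + 1), c al k) * 2 ^ (-al) := by rw [hK, ← this]; ring
      rw [e1, Real.rpow_neg (by norm_num)]
      have : (2 : ℝ) ^ al ≠ 0 := by positivity
      field_simp
    have hκ1 : κ ≤ 1 := by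
      have : ‖1 + x‖ ≤ ‖(1 : ℂ)‖ + ‖x‖ := norm_add_le _ _
      rw [hx, norm_one] at this
      rw [hκd]; linarith
    have e2 : ‖1 + x‖ = 2 * κ := by rw [hκd]; ring
    have h5 : ‖P al (m + 1) x‖ ≤ 2 ^ al * (κ ^ al + K / κ) := by
      rw [e2, Real.rpow_neg (by positivity), Real.mul_rpow (by norm_num) hκ.le,
        ← div_eq_mul_inv, div_le_iff₀ (by positivity)] at hmb
      refine hmb.trans (le_of_eq ?_)
      have e3 : κ ^ (-al - 1) = κ ^ (-al) / κ := by
        rw [Real.rpow_sub hκ, Real.rpow_one]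
      rw [e3, Real.rpow_neg hκ.le]
      have : κ ^ al ≠ 0 := by positivity
      field_simp
    rw [hS]
    refine h5.trans ?_
    apply mul_le_mul_of_nonneg_left _ (by positivity)
    have h6 : κ ^ al ≤ 1 + al * (κ - 1) := by
      have := rpow_one_add_le_one_add_mul_self (s := κ - 1) (p := al) (by linarith) h0.le h1.le
      rwa [add_sub_cancel] at this
    have h7 : K / κ - K ≤ al * (1 - κ) := by
      have : K / κ - K = K / κ * (1 - κ) := by field_simp
      rw [this]
      apply mul_le_mul_of_nonneg_right _ (by linarith)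
      rw [div_le_iff₀ hκ]
      exact hKle
    linarith

theorem main (al : ℝ) (h0 : 0 < al) (m : ℕ) (hm : Odd m) (h3 : 3 ≤ m) (x : ℂ) (hx : ‖x‖ = 1) :
    ‖∑ k ∈ Finset.range (m + 1),
          ((∏ j ∈ Finset.range k, ((al : ℂ) - (j : ℂ))) / (k.factorial : ℂ)) * x ^ k‖
        ≤ ∑ k ∈ Finset.range (m + 1),
            (∏ j ∈ Finset.range k, (al - (j : ℝ))) / (k.factorial : ℝ) := by
  obtain ⟨n, hn⟩ : ∃ n, m + 1 = 2 * (n + 1 + 1) := by
    obtain ⟨r, hr⟩ := hm
    exact ⟨r - 1, by omega⟩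
  have e : ∑ k ∈ Finset.range (m + 1),
          ((∏ j ∈ Finset.range k, ((al : ℂ) - (j : ℂ))) / (k.factorial : ℂ)) * x ^ k =
      P al (m + 1) x := by
    unfold P c
    apply sum_congr rfl
    intro k _
    push_cast
    rfl
  have e' : ∑ k ∈ Finset.range (m + 1),
            (∏ j ∈ Finset.range k, (al - (j : ℝ))) / (k.factorial : ℝ) =
      ∑ k ∈ range (m + 1), c al k := rfl
  rw [e, e', hn]
  rcases lt_or_ge al 1 with h | h
  · exact case_lt_one al h0 h n x hx
  · exact case_ge_one al h (n + 1) x hx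

end Run7.h830.Br
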